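import Pool.Agent.H224R2.Mah.Defs

/-!
# F3: the cube and the cross-polytope (symmetric Mahler conjecture, equality case)
-/

namespace Pool.Agent.H224R2.Mah

open MeasureTheory Set Filter Topology
open scoped ENNReal RealInnerProductSpace

/-- F3. The cube: `vol [-1,1]^n * vol B_1^n = 4^n / n!`. -/
theorem F3_cube (n : ℕ) : ∃ K : Set (EuclideanSpace ℝ (Fin n)), Convex ℝ K ∧ IsCompact K ∧
    (interior K).Nonempty ∧ (∀ x ∈ K, -x ∈ K) ∧
    volume K * volume (polar K) = ENNReal.ofReal (4 ^ n / n.factorial) := by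
  set K : Set (EuclideanSpace ℝ (Fin n)) := {x | ∀ i, |x i| ≤ 1} with hK
  have hpre : K = (WithLp.ofLp : EuclideanSpace ℝ (Fin n) → (Fin n → ℝ)) ⁻¹'
      (Icc (fun _ => -1) (fun _ => 1)) := by
    ext x
    simp only [hK, mem_ofPred_eq, mem_preimage, mem_Icc, Pi.le_def]
    constructor
    · intro h
      exact ⟨fun i => (abs_le.1 (h i)).1, fun i => (abs_le.1 (h i)).2⟩
    · rintro ⟨h1, h2⟩ i
      exact abs_le.2 ⟨h1 i, h2 i⟩
  have hpol : polar K = (WithLp.ofLp : EuclideanSpace ℝ (Fin n) → (Fin n → ℝ)) ⁻¹'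
      {y | ∑ i, |y i| ≤ 1} := by
    ext y
    simp only [polar, mem_ofPred_eq, mem_preimage]
    constructor
    · intro h
      have h1 := h (WithLp.toLp 2 (fun i => Real.sign (y i))) (by
        intro i
        simp only
        rcases lt_trichotomy (y i) 0 with h | h | h
        · rw [Real.sign_of_neg h]; norm_num
        · rw [h, Real.sign_zero]; norm_num
        · rw [Real.sign_of_pos h]; norm_num)
      have h2 : ⟪(WithLp.toLp 2 (fun i => Real.sign (y i)) : EuclideanSpace ℝ (Fin n)), y⟫ =
          ∑ i, |y i| := by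
        rw [PiLp.inner_apply]
        refine Finset.sum_congr rfl fun i _ => ?_
        simp only [RCLike.inner_apply, conj_trivial]
        rcases lt_trichotomy (y i) 0 with h | h | h
        · rw [Real.sign_of_neg h, abs_of_neg h]; ring
        · rw [h]; simp
        · rw [Real.sign_of_pos h, abs_of_pos h]; ring
      rw [h2] at h1
      exact h1
    · intro h x hx
      rw [PiLp.inner_apply]
      refine le_trans (Finset.sum_le_sum fun i _ => ?_) h
      simp only [RCLike.inner_apply, conj_trivial]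
      refine (le_abs_self _).trans ?_
      rw [abs_mul]
      have := hx i
      nlinarith [abs_nonneg (y i)]
  have hmp := PiLp.volume_preserving_ofLp (Fin n)
  have hm : MeasurableEmbedding (WithLp.ofLp : EuclideanSpace ℝ (Fin n) → (Fin n → ℝ)) :=
    (MeasurableEquiv.toLp 2 (Fin n → ℝ)).symm.measurableEmbedding
  have hvK : volume K = ENNReal.ofReal (2 ^ n) := by
    rw [hpre, hmp.measure_preimage_emb hm, Real.volume_Icc_pi]
    simp only [sub_neg_eq_add]
    rw [Finset.prod_const, Finset.card_univ, Fintype.card_fin, ← ENNReal.ofReal_pow (by norm_num)]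
    norm_num
  have hvP : volume (polar K) = ENNReal.ofReal (2 ^ n / n.factorial) := by
    rw [hpol, hmp.measure_preimage_emb hm]
    rcases Nat.eq_zero_or_pos n with rfl | hn
    · have : {y : Fin 0 → ℝ | ∑ i, |y i| ≤ 1} = univ := by
        ext y; simp
      rw [this, volume_pi, Measure.pi_univ]
      simp
    · have : Nonempty (Fin n) := ⟨⟨0, hn⟩⟩
      have h1 := MeasureTheory.volume_sum_rpow_le (ι := Fin n) (p := 1) le_rfl 1
      have h2 : {x : Fin n → ℝ | (∑ i, |x i| ^ (1:ℝ)) ^ (1 / (1:ℝ)) ≤ 1} =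
          {y | ∑ i, |y i| ≤ 1} := by
        ext y; simp
      rw [h2] at h1
      rw [h1]
      simp only [ENNReal.ofReal_one, one_pow, one_mul, Fintype.card_fin]
      congr 1
      have h3 : Real.Gamma (1 / 1 + 1) = 1 := by
        norm_num
      have h4 : Real.Gamma ((n:ℝ) / 1 + 1) = n.factorial := by
        rw [div_one]
        exact Real.Gamma_nat_eq_factorial n
      rw [h3, h4]
      norm_num
  refine ⟨K, ?_, ?_, ?_, ?_, ?_⟩
  · rw [hpre]
    exact (convex_Icc _ _).is_linear_preimage (WithLp.linearEquiv 2 ℝ (Fin n → ℝ)).toLinearMap.isLinear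
  · rw [hpre]
    have hc : IsCompact (Icc (fun _ => -1) (fun _ => 1) : Set (Fin n → ℝ)) := isCompact_Icc
    exact (PiLp.homeomorph 2 (fun _ : Fin n => ℝ)).isCompact_preimage.2 hc
  · refine ⟨0, mem_interior_iff_mem_nhds.2 ?_⟩
    refine Filter.mem_of_superset (Metric.ball_mem_nhds (0 : EuclideanSpace ℝ (Fin n)) one_pos) ?_
    intro x hx i
    rw [mem_ball_zero_iff] at hx
    have := PiLp.norm_apply_le x i
    rw [Real.norm_eq_abs] at this
    linarith
  · intro x hx i
    have : (-x) i = -(x i) := rfl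
    rw [this, abs_neg]
    exact hx i
  · rw [hvK, hvP, ← ENNReal.ofReal_mul (by positivity)]
    congr 1
    rw [mul_div_assoc', ← mul_pow]
    norm_num

end Pool.Agent.H224R2.Mah
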